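import Pool.Agent.U79.GZ.Stm
import Pool.Agent.U56.GY.BOX

/-!
# Project GZ, package BOX (helper796): the count of the nonsingular matrices in a box

Adaptation of `Pool/Agent/U56/GY/BOX.lean` (helper56) and `Pool/Agent/U439/GD/BOX.lean` (helper439).
-/

set_option autoImplicit false
set_option linter.unusedVariables false

open scoped Classical

namespace Pool.Agent.U796.GZ

open Finset hiding ext
open Pool.Agent.U79.GZ
open Pool.Agent.U79.GY (Cfg Ok Hc Sp s4)
open Pool.Agent.Y703.CQ (nr sg prs HB S_EQ ext)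
open Pool.Agent.U439.GD (Lb lb nr_self sum_un HB_sub ez0 ez0_coe)
open Pool.Agent.U79.MO (SolA)
open Pool.Agent.U79.GD (glue glue_left glue_right)
open Pool.Agent.U56.GY (nr_rec s4_eq cor ext_sum sum_f)

theorem two0 (a : ZMod 2) : a + a = 0 := CharTwo.add_self_eq_zero a

theorem expand {T : Type} [Fintype T] (n c y : T → ZMod 2) (w : ZMod 2) :
    ∑ a, (n a + c a) * (y a + w) = ∑ a, n a * (y a + w) + ∑ a, c a * y a + (∑ a, c a) * w := by
  rw [Finset.sum_mul, ← Finset.sum_add_distrib, ← Finset.sum_add_distrib]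
  refine Finset.sum_congr rfl fun a _ => ?_
  ring

/-- only the zero solution -/
theorem ns_one {U J : Type} [Fintype U] [Fintype J] (U1 : Finset U) (J1 : Finset J)
    (A : U → U → ZMod 2) (B : U → J → ZMod 2) (C : J → U → ZMod 2) (R : J → J → ZMod 2)
    (f : U → ZMod 2) (g : J → ZMod 2) :
    ns U1 J1 A B C R f g = 1 ↔ ∀ z, SolA U1 J1 A B C R f g z → z = 0 := by
  have h0 : SolA U1 J1 A B C R f g 0 := by
    refine ⟨fun _ _ => rfl, fun _ _ => rfl, fun u _ => ?_, fun k _ => ?_⟩ <;> simp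
  unfold ns
  rw [Finset.card_eq_one]
  constructor
  · rintro ⟨a, ha⟩ z hz
    have h1 : z ∈ ({a} : Finset _) := by
      rw [← ha]
      exact Finset.mem_filter.2 ⟨Finset.mem_univ _, hz⟩
    have h2 : (0 : (U → ZMod 2) × (J → ZMod 2)) ∈ ({a} : Finset _) := by
      rw [← ha]
      exact Finset.mem_filter.2 ⟨Finset.mem_univ _, h0⟩
    rw [Finset.mem_singleton] at h1 h2
    rw [h1, h2]
  · intro h
    refine ⟨0, Finset.ext fun z => ?_⟩
    rw [Finset.mem_filter, Finset.mem_singleton]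
    exact ⟨fun hz => h z hz.2, fun hz => ⟨Finset.mem_univ _, hz ▸ h0⟩⟩

/-- the kernel of the antisymmetric part -/
theorem ker_card {J : Type} [Fintype J] (J1 : Finset J) (Q : ℕ) (ρ : J → ℕ) (s : J → ZMod 2)
    (c e : J → J → ZMod 2) (hρ : ∀ l ∈ J1, ρ l < Q)
    (hc : ∀ k ∈ J1, ∀ l ∈ J1, ∀ l' ∈ J1, ρ l = ρ l' → c k l = c k l')
    (hk : ∀ k ∈ J1, c k k = s k)
    (he : ∀ k ∈ J1, ∀ l ∈ J1, l ≠ k → e k l + e l k = c k l)
    (hs : ∀ k ∈ J1, ρ k % 4 = 3 → s k = 1) :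
    (univ.filter fun y : J → ZMod 2 => (∀ k, k ∉ J1 → y k = 0) ∧
      ∀ k ∈ J1, ∑ l ∈ J1.erase k, (e k l + e l k) * y l = 0).card *
      2 ^ (J1.filter fun i => ρ i % 4 = 3).card ≤ 2 ^ (J1.card + Q) := by
  set b : ℕ := (J1.filter fun i => ¬ ρ i % 4 = 3).card with hb
  have hcard : (univ.filter fun y : J → ZMod 2 => (∀ k, k ∉ J1 → y k = 0) ∧
      ∀ k ∈ J1, ∑ l ∈ J1.erase k, (e k l + e l k) * y l = 0).card ≤ 2 ^ Q * 2 ^ b := by
    have h1 : Fintype.card ((Fin Q → ZMod 2) × ((J1.filter fun i => ¬ ρ i % 4 = 3) → ZMod 2)) =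
        2 ^ Q * 2 ^ b := by
      rw [Fintype.card_prod, Fintype.card_fun, Fintype.card_fun, ZMod.card, Fintype.card_fin,
        Fintype.card_coe]
    rw [← h1, ← Finset.card_univ]
    refine Finset.card_le_card_of_injOn
      (fun y => ((fun r : Fin Q => ∑ l ∈ J1.filter (fun l => ρ l = r), y l),
        fun k : (J1.filter fun i => ¬ ρ i % 4 = 3) => y k)) (fun _ _ => Finset.mem_coe.2 (Finset.mem_univ _)) ?_
    intro y hy y' hy' hyy
    rw [Finset.mem_coe, Finset.mem_filter] at hy hy'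
    obtain ⟨-, hy0, hy1⟩ := hy
    obtain ⟨-, hy0', hy1'⟩ := hy'
    simp only [Prod.mk.injEq] at hyy
    obtain ⟨hr, hz⟩ := hyy
    -- the equation
    have key : ∀ y : J → ZMod 2, (∀ k ∈ J1, ∑ l ∈ J1.erase k, (e k l + e l k) * y l = 0) →
        ∀ k ∈ J1, s k * y k = ∑ l ∈ J1, c k l * y l := by
      intro y hy k hkJ
      have h2 := hy k hkJ
      rw [← Finset.add_sum_erase _ _ hkJ, hk k hkJ]
      have h3 : ∑ l ∈ J1.erase k, c k l * y l = 0 := by
        rw [← h2]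
        refine Finset.sum_congr rfl fun l hl => ?_
        rw [he k hkJ l (Finset.mem_of_mem_erase hl) (Finset.ne_of_mem_erase hl)]
      rw [h3, add_zero]
    have hsum : ∀ k ∈ J1, ∑ l ∈ J1, c k l * y l = ∑ l ∈ J1, c k l * y' l := by
      intro k hkJ
      have hfib : ∀ y : J → ZMod 2, ∑ l ∈ J1, c k l * y l =
          ∑ r ∈ range Q, ∑ l ∈ J1.filter (fun l => ρ l = r), c k l * y l := by
        intro y
        rw [Finset.sum_fiberwise_of_maps_to]
        intro l hl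
        exact Finset.mem_range.2 (hρ l hl)
      rw [hfib, hfib]
      refine Finset.sum_congr rfl fun r hr' => ?_
      rcases (J1.filter fun l => ρ l = r).eq_empty_or_nonempty with h4 | ⟨l₀, hl₀⟩
      · rw [h4, Finset.sum_empty, Finset.sum_empty]
      · have h5 : ∀ y : J → ZMod 2, ∑ l ∈ J1.filter (fun l => ρ l = r), c k l * y l =
            c k l₀ * ∑ l ∈ J1.filter (fun l => ρ l = r), y l := by
          intro y
          rw [Finset.mul_sum]
          refine Finset.sum_congr rfl fun l hl => ?_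
          rw [Finset.mem_filter] at hl hl₀
          rw [hc k hkJ l hl.1 l₀ hl₀.1 (hl.2.trans hl₀.2.symm)]
        rw [h5, h5]
        congr 1
        exact congrFun hr ⟨r, Finset.mem_range.1 hr'⟩
    funext k
    by_cases hkJ : k ∈ J1
    · by_cases hk3 : ρ k % 4 = 3
      · have h6 := key y hy1 k hkJ
        have h7 := key y' hy1' k hkJ
        rw [hs k hkJ hk3, one_mul] at h6 h7
        rw [h6, h7]
        exact hsum k hkJ
      · exact congrFun hz ⟨k, Finset.mem_filter.2 ⟨hkJ, hk3⟩⟩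
    · rw [hy0 k hkJ, hy0' k hkJ]
  have hsplit : (J1.filter fun i => ρ i % 4 = 3).card + b = J1.card := by
    rw [hb]
    exact Finset.card_filter_add_card_filter_not _
  calc _ ≤ 2 ^ Q * 2 ^ b * 2 ^ (J1.filter fun i => ρ i % 4 = 3).card := Nat.mul_le_mul_right _ hcard
    _ = 2 ^ (J1.card + Q) := by
        rw [← hsplit, ← pow_add, ← pow_add]
        congr 1
        ring

/-- the good labels -/
def LN (G : Cfg) (Z : Finset ℤ) {ι : Type} (S₀ : Finset ℕ) (J1 : Finset ι) (P0 : ι → ℕ) (β : ι → Lb S₀) :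
    Prop :=
  ∀ w : S₀ → ZMod 2, (∃ u : S₀, Hc G (u : ℕ) ∧ w u ≠ 0) → ∀ z ∈ Z,
    ∃ i ∈ J1, ∑ u ∈ univ.filter (fun u : S₀ => Hc G (u : ℕ)), w u * (β i).2.1 u + nz (P0 i) z ≠ 0

section one
variable {G : Cfg} {ι : Type} [Fintype ι] [LinearOrder ι] {J1 : Finset ι} {S₀ : Finset ℕ}
  {p P0 : ι → ℕ} {s : ι → ℕ} {Z : Finset ℤ} {γ : ℕ → ℕ → ZMod 2} (f : ℕ → ZMod 2)

omit [LinearOrder ι] in
theorem nd_iff (hJ : ∀ i, Hc G (p i) ↔ i ∈ J1) (hz : ∀ i ∈ J1, ∀ z ∈ Z, nz (p i) z = nz (P0 i) z) :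
    Nd G Z S₀ (univ.image p) ↔ LN G Z S₀ J1 P0 (fun i => lb f S₀ (p i)) := by
  unfold Nd LN
  constructor
  · intro h w hw z hzZ
    obtain ⟨u, hu1, hu2⟩ := hw
    obtain ⟨x, hx, hx1, hx2⟩ := h (ez0 w) ⟨u, u.2, hu1, by rw [ez0_coe]; exact hu2⟩ z hzZ
    rw [Finset.mem_image] at hx
    obtain ⟨i, -, rfl⟩ := hx
    refine ⟨i, (hJ i).1 hx1, ?_⟩
    rw [sum_f, hz i ((hJ i).1 hx1) z hzZ] at hx2
    intro h0
    apply hx2
    rw [← h0]
    congr 1
    refine Finset.sum_congr rfl fun u _ => ?_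
    rw [ez0_coe]
    rfl
  · intro h w hw z hzZ
    obtain ⟨u, hu0, hu1, hu2⟩ := hw
    obtain ⟨i, hi, hi2⟩ := h (fun u => w u) ⟨⟨u, hu0⟩, hu1, hu2⟩ z hzZ
    refine ⟨p i, Finset.mem_image_of_mem _ (Finset.mem_univ _), (hJ i).2 hi, ?_⟩
    rw [sum_f, hz i hi z hzZ]
    exact hi2

/-- the correction in the columns of the small primes -/
noncomputable def gs (G : Cfg) (γ : ℕ → ℕ → ZMod 2) (q : ℕ) (v : ℕ) : ZMod 2 :=
  if Hc G v then γ q v else 0

/-- the correction in the columns of the large primes -/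
noncomputable def gl (J1 : Finset ι) (P0 : ι → ℕ) (γ : ℕ → ℕ → ZMod 2) (q : ℕ) (l : ι) : ZMod 2 :=
  if l ∈ J1 then γ q (P0 l) else 0

/-- the sum of the corrections in a row -/
noncomputable def gt (G : Cfg) (S₀ : Finset ℕ) (J1 : Finset ι) (P0 : ι → ℕ) (γ : ℕ → ℕ → ZMod 2) (q : ℕ) :
    ZMod 2 :=
  ∑ v : S₀, gs G γ q v + ∑ l, gl J1 P0 γ q l

/-- a row -/
theorem row_eq (hp : Function.Injective p) (hd : ∀ i, p i ∉ S₀) (x : ℕ → ZMod 2)
    (hx : ∀ q, ¬ (q ∈ S₀ ∪ univ.image p ∧ Hc G q) → x q = 0)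
    (hJ : ∀ i, Hc G (p i) ↔ i ∈ J1) (q q' : ℕ) (N : S₀ → ZMod 2) (M : ι → ZMod 2) (a : ZMod 2)
    (h1 : ∀ v : S₀, Hc G (v : ℕ) → γ q v = γ q' v) (h2 : ∀ l ∈ J1, γ q (p l) = γ q' (P0 l)) (w : ZMod 2) :
    ∑ v : S₀, (N v + gs G γ q' v) * (x v + w) + ∑ l, (M l + gl J1 P0 γ q' l) * (x (p l) + w) +
      (a + gt G S₀ J1 P0 γ q') * w =
    (∑ v : S₀, N v * (x v + w) + ∑ l, M l * (x (p l) + w)) +
      ∑ y ∈ S₀ ∪ univ.image p, γ q y * x y + a * w := by
  rw [expand, expand, sum_un hp hd]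
  have e1 : ∑ v : S₀, gs G γ q' v * x v = ∑ v : S₀, γ q v * x v := by
    refine Finset.sum_congr rfl fun v _ => ?_
    unfold gs
    split_ifs with h
    · rw [h1 v h]
    · rw [hx v fun h' => h h'.2, mul_zero, mul_zero]
  have e2 : ∑ l, gl J1 P0 γ q' l * x (p l) = ∑ l, γ q (p l) * x (p l) := by
    refine Finset.sum_congr rfl fun l _ => ?_
    unfold gl
    split_ifs with h
    · rw [h2 l h]
    · rw [hx (p l) fun h' => h ((hJ l).1 h'.2), mul_zero, mul_zero]
  rw [e1, e2]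
  unfold gt
  linear_combination two0 ((∑ v : S₀, gs G γ q' v) * w) + two0 ((∑ l, gl J1 P0 γ q' l) * w)

theorem sol_iff (hp : Function.Injective p) (hpr : ∀ i, (p i).Prime ∧ p i ≠ 2)
    (hd : ∀ i, p i ∉ S₀) (hJ : ∀ i, Hc G (p i) ↔ i ∈ J1) (hs : ∀ i, p i % 4 = s i)
    (hg1 : ∀ u ∈ S₀, Hc G u → ∀ l ∈ J1, γ u (p l) = γ u (P0 l))
    (hg2 : ∀ k ∈ J1, ∀ u ∈ S₀, Hc G u → γ (p k) u = γ (P0 k) u)
    (hg3 : ∀ k ∈ J1, ∀ l ∈ J1, γ (p k) (p l) = γ (P0 k) (P0 l))
    (x : ℕ → ZMod 2) (hx : ∀ q, ¬ (q ∈ S₀ ∪ univ.image p ∧ Hc G q) → x q = 0) :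
    Sol G γ f (S₀ ∪ univ.image p) x ↔
      (∀ u ∈ univ.filter (fun u : S₀ => Hc G (u : ℕ)),
        ∑ v : S₀, (nr u v + gs G γ u v) * (x v + x u) +
        ∑ l, (nr u (p l) + gl J1 P0 γ u l) * (x (p l) + x u) +
          (f u + gt G S₀ J1 P0 γ u) * x u = 0) ∧
      (∀ k ∈ J1, ∑ u : S₀, (nr (p k) u + gs G γ (P0 k) u) * (x u + x (p k)) +
        ∑ l, (ext (fun e : prs J1 => nr (p e.1.1) (p e.1.2)) k l + (cor J1 s k l + gl J1 P0 γ (P0 k) l)) *
          (x (p l) + x (p k)) + (f (p k) + gt G S₀ J1 P0 γ (P0 k)) * x (p k) = 0) := by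
  have r1 : ∀ u : S₀, Hc G (u : ℕ) →
      ∑ v : S₀, (nr u v + gs G γ u v) * (x v + x u) +
        ∑ l, (nr u (p l) + gl J1 P0 γ u l) * (x (p l) + x u) + (f u + gt G S₀ J1 P0 γ u) * x u =
      ∑ q ∈ S₀ ∪ univ.image p, nr u q * (x q + x u) + ∑ q ∈ S₀ ∪ univ.image p, γ u q * x q +
        f u * x u := by
    intro u hu
    rw [row_eq hp hd x hx hJ (u : ℕ) (u : ℕ) (fun v => nr u v) (fun l => nr u (p l)) (f u) (fun _ _ => rfl)
      (fun l hl => hg1 u u.2 hu l hl) (x u), sum_un hp hd (fun q => nr u q * (x q + x u))]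
  have r2 : ∀ k ∈ J1, ∑ u : S₀, (nr (p k) u + gs G γ (P0 k) u) * (x u + x (p k)) +
        ∑ l, (ext (fun e : prs J1 => nr (p e.1.1) (p e.1.2)) k l + (cor J1 s k l + gl J1 P0 γ (P0 k) l)) *
          (x (p l) + x (p k)) + (f (p k) + gt G S₀ J1 P0 γ (P0 k)) * x (p k) =
      ∑ q ∈ S₀ ∪ univ.image p, nr (p k) q * (x q + x (p k)) +
        ∑ q ∈ S₀ ∪ univ.image p, γ (p k) q * x q + f (p k) * x (p k) := by
    intro k hk
    simp only [← add_assoc (ext _ _ _)]
    rw [row_eq hp hd x hx hJ (p k) (P0 k) (fun v => nr (p k) v)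
      (fun l => ext (fun e : prs J1 => nr (p e.1.1) (p e.1.2)) k l + cor J1 s k l) (f (p k))
      (fun v hv => hg2 k hk v v.2 hv) (fun l hl => hg3 k hk l hl) (x (p k)),
      sum_un hp hd (fun q => nr (p k) q * (x q + x (p k))),
      ext_sum hp hpr hs k hk (fun l => x (p l))]
  unfold Sol
  constructor
  · intro h
    refine ⟨fun u hu => ?_, fun k hk => ?_⟩
    · rw [r1 u (Finset.mem_filter.1 hu).2]
      exact h u (Finset.mem_union_left _ u.2) (Finset.mem_filter.1 hu).2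
    · rw [r2 k hk]
      exact h (p k) (Finset.mem_union_right _ (Finset.mem_image_of_mem _ (Finset.mem_univ _)))
        ((hJ k).2 hk)
  · rintro ⟨h1, h2⟩ y hy hy1
    rw [Finset.mem_union, Finset.mem_image] at hy
    rcases hy with hy | ⟨k, -, rfl⟩
    · rw [← r1 ⟨y, hy⟩ hy1]
      exact h1 ⟨y, hy⟩ (Finset.mem_filter.2 ⟨Finset.mem_univ _, hy1⟩)
    · have hk := (hJ k).1 hy1
      rw [← r2 k hk]
      exact h2 k hk

theorem gd_iff (hp : Function.Injective p) (hpr : ∀ i, (p i).Prime ∧ p i ≠ 2)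
    (hd : ∀ i, p i ∉ S₀) (hJ : ∀ i, Hc G (p i) ↔ i ∈ J1) (hs : ∀ i, p i % 4 = s i)
    (hg1 : ∀ u ∈ S₀, Hc G u → ∀ l ∈ J1, γ u (p l) = γ u (P0 l))
    (hg2 : ∀ k ∈ J1, ∀ u ∈ S₀, Hc G u → γ (p k) u = γ (P0 k) u)
    (hg3 : ∀ k ∈ J1, ∀ l ∈ J1, γ (p k) (p l) = γ (P0 k) (P0 l)) :
    Gd G γ f (S₀ ∪ univ.image p) ↔ ns (univ.filter fun u : S₀ => Hc G (u : ℕ)) J1
      (fun u v : S₀ => nr u v + gs G γ u v) (fun (u : S₀) l => nr u (p l) + gl J1 P0 γ u l)
      (fun k (u : S₀) => nr (p k) u + gs G γ (P0 k) u)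
      (fun k l => ext (fun e : prs J1 => nr (p e.1.1) (p e.1.2)) k l + (cor J1 s k l + gl J1 P0 γ (P0 k) l))
      (fun u : S₀ => f u + gt G S₀ J1 P0 γ u) (fun k => f (p k) + gt G S₀ J1 P0 γ (P0 k)) = 1 := by
  rw [ns_one]
  unfold Gd
  have hsup : ∀ (c : S₀ → ZMod 2) (d : ι → ZMod 2),
      (∀ u, u ∉ univ.filter (fun u : S₀ => Hc G (u : ℕ)) → c u = 0) → (∀ l, l ∉ J1 → d l = 0) →
      ∀ q, ¬ (q ∈ S₀ ∪ univ.image p ∧ Hc G q) → glue S₀ p c d q = 0 := by
    intro c d hc0 hd0 q hq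
    by_cases h1 : q ∈ S₀
    · rw [show glue S₀ p c d q = c ⟨q, h1⟩ from glue_left c d ⟨q, h1⟩]
      exact hc0 _ fun hu => hq ⟨Finset.mem_union_left _ h1, (Finset.mem_filter.1 hu).2⟩
    · by_cases h2 : ∃ l, p l = q
      · obtain ⟨l, rfl⟩ := h2
        rw [glue_right hp hd]
        exact hd0 l fun hl => hq ⟨Finset.mem_union_right _
          (Finset.mem_image_of_mem _ (Finset.mem_univ _)), (hJ l).2 hl⟩
      · unfold glue
        rw [dif_neg h1, dif_neg h2]
  constructor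
  · rintro h ⟨c, d⟩ ⟨hc0, hd0, h1, h2⟩
    have h3 := h (glue S₀ p c d) (hsup c d hc0 hd0) (by
      rw [sol_iff f hp hpr hd hJ hs hg1 hg2 hg3 _ (hsup c d hc0 hd0)]
      simp only [glue_left, glue_right hp hd]
      exact ⟨h1, h2⟩)
    refine Prod.ext (funext fun u => ?_) (funext fun l => ?_)
    · have := h3 u
      rw [glue_left] at this
      exact this
    · have := h3 (p l)
      rw [glue_right hp hd] at this
      exact this
  · intro h x hx0 hx
    have h1 := (sol_iff f hp hpr hd hJ hs hg1 hg2 hg3 x hx0).1 hx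
    have h2 := h (fun u => x u, fun l => x (p l)) ⟨fun u hu => hx0 _ fun h' =>
      hu (Finset.mem_filter.2 ⟨Finset.mem_univ _, h'.2⟩), fun l hl => hx0 _ fun h' =>
      hl ((hJ l).1 h'.2), h1.1, h1.2⟩
    rw [Prod.ext_iff] at h2
    intro q
    by_cases h3 : q ∈ S₀ ∪ univ.image p ∧ Hc G q
    · obtain ⟨h4, h5⟩ := h3
      rw [Finset.mem_union, Finset.mem_image] at h4
      rcases h4 with h4 | ⟨l, -, rfl⟩
      · exact congrFun h2.1 ⟨q, h4⟩
      · exact congrFun h2.2 l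
    · exact hx0 q h3

end one

theorem ne_one : ∀ a : ZMod 2, a ≠ 0 → a = 1 := by decide

theorem sq_self : ∀ a : ZMod 2, a * a = a := by decide

/-- sums over the support of `w` -/
theorem sum_supp {S₀ : Finset ℕ} (w : S₀ → ZMod 2) (h : ℕ → ZMod 2) :
    ∑ u ∈ (univ.filter fun u : S₀ => w u ≠ 0).image (fun u : S₀ => (u : ℕ)), h u = ∑ u : S₀, w u * h u := by
  rw [Finset.sum_image (fun a _ b _ hab => Subtype.ext hab), Finset.sum_filter]
  refine Finset.sum_congr rfl fun u _ => ?_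
  split_ifs with hw
  · rw [ne_one _ hw, one_mul]
  · rw [not_not.1 hw, zero_mul]

/-- **The count in a box.** -/
theorem t_BOX : S_BOX := by
  intro hEQ hLA G γ Z f K ι _ _ J1 C X κ S₀ ρ hOk hGa hκ hCX hHB hS₀ hC hdis hne
  set cc : ℝ := er K S₀.card J1.card G.Q (J1.filter fun i => ρ i % 4 = 3).card with hcc
  set R : ℝ := 2 ^ (prs J1).card * (κ * ∏ j, (X j : ℝ)) with hR
  have hR0 : 0 ≤ R := mul_nonneg (by positivity)
    (mul_nonneg hκ (Finset.prod_nonneg fun j _ => by positivity))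
  -- facts on tuples
  have hinj : ∀ p ∈ Fintype.piFinset C, Function.Injective p := by
    intro p hp i j hij
    rw [Fintype.mem_piFinset] at hp
    by_contra hne
    have h1 := Finset.disjoint_left.1 (hdis i j hne) (hp i)
    rw [hij] at h1
    exact h1 (hp j)
  have hJ : ∀ p ∈ Fintype.piFinset C, ∀ i, Hc G (p i) ↔ i ∈ J1 := by
    intro p hp i
    rw [Fintype.mem_piFinset] at hp
    exact (hC i _ (hp i)).2.2.2.1.symm
  have hQ : ∀ p ∈ Fintype.piFinset C, ∀ i, p i % G.Q = ρ i := by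
    intro p hp i
    rw [Fintype.mem_piFinset] at hp
    exact (hC i _ (hp i)).2.2.2.2
  have h4Q : 4 ∣ G.Q := (by norm_num : (4 : ℕ) ∣ 8).trans hOk.q8
  have hs4 : ∀ p ∈ Fintype.piFinset C, ∀ i, p i % 4 = ρ i % 4 := by
    intro p hp i
    rw [← hQ p hp i, Nat.mod_mod_of_dvd _ h4Q]
  have hd : ∀ p ∈ Fintype.piFinset C, ∀ i, p i ∉ S₀ := by
    intro p hp i
    rw [Fintype.mem_piFinset] at hp
    exact (hC i _ (hp i)).2.2.1
  have hpr : ∀ p ∈ Fintype.piFinset C, ∀ i, (p i).Prime ∧ p i ≠ 2 := by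
    intro p hp i
    rw [Fintype.mem_piFinset] at hp
    exact ⟨(hC i _ (hp i)).1, (hC i _ (hp i)).2.1⟩
  have hSp : ∀ p ∈ Fintype.piFinset C, ∀ k ∈ J1, Sp G (p k) := fun p hp k hk =>
    ⟨(hpr p hp k).1, (hJ p hp k).2 hk⟩
  by_cases hem : Fintype.piFinset C = ∅
  · rw [hem]
    simp only [Finset.filter_empty, Finset.card_empty, Nat.cast_zero, mul_zero, sub_zero, abs_zero,
      zero_add]
    have : 0 ≤ κ * ∏ j, (X j : ℝ) := mul_nonneg hκ (Finset.prod_nonneg fun j _ => by positivity)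
    positivity
  obtain ⟨P0, hP0⟩ := Finset.nonempty_iff_ne_empty.2 hem
  have hres : ∀ p ∈ Fintype.piFinset C, ∀ k, p k % G.Q = P0 k % G.Q := fun p hp k => by
    rw [hQ p hp, hQ P0 hP0]
  have hz : ∀ p ∈ Fintype.piFinset C, ∀ i ∈ J1, ∀ z ∈ Z, nz (p i) z = nz (P0 i) z :=
    fun p hp i hi z hzZ => hGa.perz z hzZ _ _ (hSp p hp i hi) (hSp P0 hP0 i hi) (hres p hp i)
  have hg1 : ∀ p ∈ Fintype.piFinset C, ∀ u ∈ S₀, Hc G u → ∀ l ∈ J1, γ u (p l) = γ u (P0 l) :=
    fun p hp u hu hu1 l hl => hGa.per _ _ _ _ ⟨(hS₀ u hu).1, hu1⟩ ⟨(hS₀ u hu).1, hu1⟩ (hSp p hp l hl)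
      (hSp P0 hP0 l hl) rfl (hres p hp l)
  have hg2 : ∀ p ∈ Fintype.piFinset C, ∀ k ∈ J1, ∀ u ∈ S₀, Hc G u → γ (p k) u = γ (P0 k) u :=
    fun p hp k hk u hu hu1 => hGa.per _ _ _ _ (hSp p hp k hk) (hSp P0 hP0 k hk) ⟨(hS₀ u hu).1, hu1⟩
      ⟨(hS₀ u hu).1, hu1⟩ (hres p hp k) rfl
  have hg3 : ∀ p ∈ Fintype.piFinset C, ∀ k ∈ J1, ∀ l ∈ J1, γ (p k) (p l) = γ (P0 k) (P0 l) :=
    fun p hp k hk l hl => hGa.per _ _ _ _ (hSp p hp k hk) (hSp P0 hP0 k hk) (hSp p hp l hl)
      (hSp P0 hP0 l hl) (hres p hp k) (hres p hp l)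
  have hsP : ∀ p ∈ Fintype.piFinset C, ∀ i, s4 (p i) = s4 (P0 i) := by
    intro p hp i
    unfold s4
    rw [hs4 p hp, hs4 P0 hP0]
  -- the part with given labels
  have h1 : ∀ β : ι → Lb S₀, LN G Z S₀ J1 P0 β →
      |(((Fintype.piFinset C).filter fun p => (fun i => lb f S₀ (p i)) = β ∧
          Gd G γ f (S₀ ∪ univ.image p)).card : ℝ) -
        eta * (((Fintype.piFinset C).filter fun p => (fun i => lb f S₀ (p i)) = β).card : ℝ)| ≤
      cc * (((Fintype.piFinset C).filter fun p => (fun i => lb f S₀ (p i)) = β).card : ℝ) + R := by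
    intro β hβ
    by_cases hemp : ((Fintype.piFinset C).filter fun p => (fun i => lb f S₀ (p i)) = β) = ∅
    · have he2 : ((Fintype.piFinset C).filter fun p => (fun i => lb f S₀ (p i)) = β ∧
          Gd G γ f (S₀ ∪ univ.image p)) = ∅ := by
        rw [← Finset.filter_filter, hemp, Finset.filter_empty]
      rw [he2, hemp]
      simpa using hR0
    obtain ⟨p₀, hp₀⟩ := Finset.nonempty_iff_ne_empty.2 hemp
    rw [Finset.mem_filter] at hp₀
    obtain ⟨hp₀, hp₀β⟩ := hp₀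
    set C' : ι → Finset ℕ := fun i => (C i).filter fun q => lb f S₀ q = β i with hC'
    have hpi : (Fintype.piFinset C).filter (fun p => (fun i => lb f S₀ (p i)) = β) =
        Fintype.piFinset C' := by
      ext p
      simp only [Finset.mem_filter, Fintype.mem_piFinset, hC']
      constructor
      · rintro ⟨h2, h3⟩ i
        exact ⟨h2 i, congrFun h3 i⟩
      · intro h2
        exact ⟨fun i => (h2 i).1, funext fun i => (h2 i).2⟩
    have hred : ∀ v : S₀ → ZMod 2, (∀ u, u ∉ (univ.filter fun u : S₀ => Hc G (u : ℕ)) →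
        v u = 0) → ∀ g : S₀ → ZMod 2,
        ∑ u ∈ univ.filter (fun u : S₀ => Hc G (u : ℕ)), v u * g u = ∑ u, v u * g u := by
      intro v hv g
      rw [Finset.sum_filter]
      refine Finset.sum_congr rfl fun v' _ => ?_
      split_ifs with h8
      · rfl
      · rw [hv v' fun hv => h8 (Finset.mem_filter.1 hv).2, zero_mul]
    have hsup : ∀ w : S₀ → ZMod 2, (∀ u, u ∉ (univ.filter fun u : S₀ => Hc G (u : ℕ)) → w u = 0) →
        ∀ u : S₀, w u ≠ 0 → Hc G (u : ℕ) := by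
      intro w hw0 u hu
      by_contra h8
      exact hu (hw0 u fun hu' => h8 (Finset.mem_filter.1 hu').2)
    have hT : ∀ w : S₀ → ZMod 2, (∀ u, u ∉ (univ.filter fun u : S₀ => Hc G (u : ℕ)) → w u = 0) →
        ∀ u ∈ (univ.filter fun u : S₀ => w u ≠ 0).image (fun u : S₀ => (u : ℕ)), Sp G u := by
      intro w hw0 u hu
      rw [Finset.mem_image] at hu
      obtain ⟨v, hv, rfl⟩ := hu
      exact ⟨(hS₀ v v.2).1, hsup w hw0 v (Finset.mem_filter.1 hv).2⟩
    have hHy : Hy (univ.filter fun u : S₀ => Hc G (u : ℕ)) J1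
        (fun (u : S₀) l => (β l).1 u + gl J1 P0 γ u l) (fun k (u : S₀) => (β k).2.1 u + gs G γ (P0 k) u)
        (fun k l => cor J1 (fun i => ρ i % 4) k l + gl J1 P0 γ (P0 k) l) G.Q
        (J1.filter fun i => ρ i % 4 = 3).card := by
      refine ⟨hne, ?_, ?_, ?_⟩
      · intro w hw0 hw
        obtain ⟨z, hzZ, hz1⟩ := hGa.row _ (hT w hw0)
        obtain ⟨u, hu⟩ := hw
        obtain ⟨k, hk, hk2⟩ := hβ w ⟨u, hsup w hw0 u hu, hu⟩ z hzZ
        refine ⟨k, hk, ?_⟩
        rw [hred w hw0, ← hz1 (P0 k) (hSp P0 hP0 k hk),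
          sum_supp w (fun u => γ u (P0 k) + s4 (P0 k) * s4 u), ← Finset.sum_add_distrib] at hk2
        intro h0
        apply hk2
        rw [← h0]
        refine Finset.sum_congr rfl fun u' _ => ?_
        have h3 := congrFun hp₀β k
        have h4 : nr u' (p₀ k) = nr (p₀ k) u' + s4 u' * s4 (p₀ k) :=
          nr_rec (hS₀ u' u'.2).1 (hS₀ u' u'.2).2 (hpr p₀ hp₀ k).1 (hpr p₀ hp₀ k).2
            (fun h5 => hd p₀ hp₀ k (h5 ▸ u'.2))
        have h5 : (β k).1 u' = nr u' (p₀ k) := by rw [← h3]; rfl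
        have h6 : (β k).2.1 u' = nr (p₀ k) u' := by rw [← h3]; rfl
        have h7 : gl J1 P0 γ u' k = γ u' (P0 k) := by
          unfold gl
          rw [if_pos hk]
        show w u' * (β k).2.1 u' + w u' * (γ (↑u') (P0 k) + s4 (P0 k) * s4 ↑u') =
          w u' * ((β k).1 u' + gl J1 P0 γ u' k)
        rw [h5, h6, h7, h4, hsP p₀ hp₀]
        ring
      · intro w hw0 hw
        obtain ⟨z, hzZ, hz1⟩ := hGa.col _ (hT w hw0)
        obtain ⟨u, hu⟩ := hw
        obtain ⟨k, hk, hk2⟩ := hβ w ⟨u, hsup w hw0 u hu, hu⟩ z hzZ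
        refine ⟨k, hk, ?_⟩
        rw [hred w hw0, ← hz1 (P0 k) (hSp P0 hP0 k hk),
          sum_supp w (fun u => γ (P0 k) u), ← Finset.sum_add_distrib] at hk2
        intro h0
        apply hk2
        rw [← h0]
        refine Finset.sum_congr rfl fun u' _ => ?_
        show w u' * (β k).2.1 u' + w u' * γ (P0 k) ↑u' = w u' * ((β k).2.1 u' + gs G γ (P0 k) u')
        by_cases h8 : w u' = 0
        · rw [h8]; ring
        · have h7 : gs G γ (P0 k) u' = γ (P0 k) u' := by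
            unfold gs
            rw [if_pos (hsup w hw0 u' h8)]
          rw [h7]
          ring
      · refine ker_card J1 G.Q ρ (fun k => s4 (P0 k))
          (fun k l => s4 (P0 k) * s4 (P0 l) + γ (P0 k) (P0 l) + γ (P0 l) (P0 k))
          (fun k l => cor J1 (fun i => ρ i % 4) k l + gl J1 P0 γ (P0 k) l) ?_ ?_ ?_ ?_ ?_
        · intro l _
          rw [← hQ P0 hP0 l]
          exact Nat.mod_lt _ hOk.q0
        · intro k hk l hl l' hl' hll
          have e1 : P0 l % G.Q = P0 l' % G.Q := by rw [hQ P0 hP0, hQ P0 hP0, hll]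
          have e2 : s4 (P0 l) = s4 (P0 l') := by
            unfold s4
            rw [hs4 P0 hP0, hs4 P0 hP0, hll]
          have e3 := hGa.per _ _ _ _ (hSp P0 hP0 k hk) (hSp P0 hP0 k hk) (hSp P0 hP0 l hl)
            (hSp P0 hP0 l' hl') rfl e1
          have e4 := hGa.per _ _ _ _ (hSp P0 hP0 l hl) (hSp P0 hP0 l' hl') (hSp P0 hP0 k hk)
            (hSp P0 hP0 k hk) e1 rfl
          show _ + _ + _ = _ + _ + _
          rw [e2, e3, e4]
        · intro k _
          show _ + _ + _ = _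
          rw [add_assoc, two0, add_zero, sq_self]
        · intro k hk l hl hlk
          have e1 : gl J1 P0 γ (P0 k) l = γ (P0 k) (P0 l) := by unfold gl; rw [if_pos hl]
          have e2 : gl J1 P0 γ (P0 l) k = γ (P0 l) (P0 k) := by unfold gl; rw [if_pos hk]
          have e3 : ∀ i, s4 (ρ i % 4) = s4 (P0 i) := by
            intro i
            unfold s4
            rw [← hs4 P0 hP0 i, Nat.mod_mod]
          have e4 : cor J1 (fun i => ρ i % 4) k l + cor J1 (fun i => ρ i % 4) l k =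
              s4 (P0 k) * s4 (P0 l) := by
            unfold cor
            rcases lt_or_gt_of_ne hlk with h | h
            · have h5 : (k, l) ∉ prs J1 := by
                unfold prs
                rw [Finset.mem_filter]
                rintro ⟨-, -, -, h6⟩
                exact lt_asymm h (h6 hl)
              have h6 : (l, k) ∈ prs J1 := by
                unfold prs
                exact Finset.mem_filter.2 ⟨Finset.mem_univ _, hl, hlk.symm, fun _ => h⟩
              rw [if_neg (by rintro (h7 | h7); exacts [h5 h7, hlk h7]), if_pos (Or.inl h6), add_zero,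
                e3, e3]
            · have h5 : (l, k) ∉ prs J1 := by
                unfold prs
                rw [Finset.mem_filter]
                rintro ⟨-, -, -, h6⟩
                exact lt_asymm h (h6 hk)
              have h6 : (k, l) ∈ prs J1 := by
                unfold prs
                exact Finset.mem_filter.2 ⟨Finset.mem_univ _, hk, hlk, fun _ => h⟩
              rw [if_pos (Or.inl h6), if_neg (by rintro (h7 | h7); exacts [h5 h7, hlk h7.symm]), zero_add,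
                e3, e3, mul_comm]
          show (_ + _) + (_ + _) = _
          rw [e1, e2, ← e4]
          ring
        · intro k _ hk3
          show s4 (P0 k) = 1
          unfold s4
          rw [hs4 P0 hP0, if_pos hk3]
    have h2 := hLA K G.Q (J1.filter fun i => ρ i % 4 = 3).card S₀ ι
      (univ.filter fun u : S₀ => Hc G (u : ℕ)) J1
      (fun u v : S₀ => nr u v + gs G γ u v) (fun (u : S₀) l => (β l).1 u + gl J1 P0 γ u l)
      (fun k (u : S₀) => (β k).2.1 u + gs G γ (P0 k) u)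
      (fun k l => cor J1 (fun i => ρ i % 4) k l + gl J1 P0 γ (P0 k) l)
      (fun u : S₀ => f u + gt G S₀ J1 P0 γ u) (fun k => (β k).2.2 + gt G S₀ J1 P0 γ (P0 k)) hHy
    rw [Fintype.card_coe] at h2
    set Q : (prs J1 → ZMod 2) → Prop := fun α => ns (univ.filter fun u : S₀ => Hc G (u : ℕ)) J1
      (fun u v : S₀ => nr u v + gs G γ u v) (fun (u : S₀) l => (β l).1 u + gl J1 P0 γ u l)
      (fun k (u : S₀) => (β k).2.1 u + gs G γ (P0 k) u)
      (fun k l => ext α k l + (cor J1 (fun i => ρ i % 4) k l + gl J1 P0 γ (P0 k) l))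
      (fun u : S₀ => f u + gt G S₀ J1 P0 γ u) (fun k => (β k).2.2 + gt G S₀ J1 P0 γ (P0 k)) = 1 with hQd
    have h3 := hEQ ι J1 C' X κ hκ
      (fun i => (Finset.card_le_card (Finset.filter_subset _ _)).trans (hCX i))
      (HB_sub hHB fun i q => lb f S₀ q = β i) Q
    have h4 : ((Fintype.piFinset C).filter fun p => (fun i => lb f S₀ (p i)) = β ∧
        Gd G γ f (S₀ ∪ univ.image p)) = ((Fintype.piFinset C').filter fun p =>
          Q fun e => nr (p e.1.1) (p e.1.2)) := by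
      rw [← hpi, Finset.filter_filter]
      refine Finset.filter_congr fun p hp => ?_
      refine and_congr_right fun hl => ?_
      rw [gd_iff f (hinj p hp) (hpr p hp) (hd p hp) (hJ p hp) (hs4 p hp) (hg1 p hp) (hg2 p hp) (hg3 p hp)]
      subst hl
      exact Iff.rfl
    have h5 : (((Fintype.piFinset C').card : ℕ) : ℝ) = ∏ j, ((C' j).card : ℝ) := by
      rw [Fintype.card_piFinset]
      push_cast
      rfl
    rw [h4, hpi, h5]
    have h2' : |((univ.filter Q).card : ℝ) / 2 ^ (prs J1).card - eta| ≤ cc := h2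
    set n : ℝ := (((Fintype.piFinset C').filter fun p =>
          Q fun e => nr (p e.1.1) (p e.1.2)).card : ℝ) with hn
    set q : ℝ := ((univ.filter Q).card : ℝ) / 2 ^ (prs J1).card with hq
    set P : ℝ := ∏ j, ((C' j).card : ℝ) with hP
    have hP0' : 0 ≤ P := Finset.prod_nonneg fun j _ => by positivity
    have h6 : |n - eta * P| ≤ |n - q * P| + |q - eta| * P := by
      have h7 : n - eta * P = (n - q * P) + (q - eta) * P := by ring
      have h8 : |(q - eta) * P| = |q - eta| * P := by rw [abs_mul, abs_of_nonneg hP0']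
      rw [h7, ← h8]
      exact abs_add_le _ _
    have h7 : |q - eta| * P ≤ cc * P := mul_le_mul_of_nonneg_right h2' hP0'
    have h8 : |n - q * P| ≤ R := by
      rw [hn, hq, hR]
      convert h3
    linarith
  -- sum over the labels
  set LL := univ.filter (fun β : ι → Lb S₀ => LN G Z S₀ J1 P0 β) with hLL
  have hfib : ∀ T : (ι → ℕ) → Prop,
      (((Fintype.piFinset C).filter fun p => Nd G Z S₀ (univ.image p) ∧ T p).card : ℝ) =
      ∑ β ∈ LL, (((Fintype.piFinset C).filter fun p =>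
        (fun i => lb f S₀ (p i)) = β ∧ T p).card : ℝ) := by
    intro T
    rw [Finset.card_eq_sum_card_fiberwise (f := fun (p : ι → ℕ) (i : ι) => lb f S₀ (p i))
      (t := LL) (by
        intro p hp
        rw [Finset.mem_coe, Finset.mem_filter] at hp
        rw [Finset.mem_coe, hLL, Finset.mem_filter]
        exact ⟨Finset.mem_univ _, (nd_iff f (hJ p hp.1) (hz p hp.1)).1 hp.2.1⟩)]
    push_cast
    refine Finset.sum_congr rfl fun β hβ => ?_
    rw [hLL, Finset.mem_filter] at hβ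
    congr 2
    ext p
    simp only [Finset.mem_filter]
    constructor
    · rintro ⟨⟨h3, h4, h4'⟩, h5⟩
      exact ⟨h3, h5, h4'⟩
    · rintro ⟨h3, h4, h5⟩
      refine ⟨⟨h3, ?_, h5⟩, h4⟩
      rw [nd_iff f (hJ p h3) (hz p h3), h4]
      exact hβ.2
  have hf1 := hfib fun p => Gd G γ f (S₀ ∪ univ.image p)
  have hf2 := hfib fun _ => True
  simp only [and_true] at hf2
  rw [hf1, hf2, Finset.mul_sum, ← Finset.sum_sub_distrib]
  refine (Finset.abs_sum_le_sum_abs _ _).trans ?_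
  refine (Finset.sum_le_sum fun β hβ => h1 β (Finset.mem_filter.1 hβ).2).trans ?_
  rw [Finset.sum_add_distrib, ← Finset.mul_sum, Finset.sum_const, nsmul_eq_mul]
  have h5 : ((LL.card : ℕ) : ℝ) ≤ 2 ^ ((2 * S₀.card + 1) * Fintype.card ι) := by
    have h6 : LL.card ≤ Fintype.card (ι → Lb S₀) := Finset.card_le_univ _
    rw [Fintype.card_fun, Fintype.card_prod, Fintype.card_prod, Fintype.card_fun, ZMod.card,
      Fintype.card_coe, ← pow_succ, ← pow_add, ← pow_mul] at h6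
    have h7 : (S₀.card + (S₀.card + 1)) * Fintype.card ι = (2 * S₀.card + 1) * Fintype.card ι := by
      ring
    rw [h7] at h6
    exact_mod_cast h6
  have h6 := mul_le_mul_of_nonneg_right h5 hR0
  rw [pow_add, mul_assoc]
  linarith

end Pool.Agent.U796.GZ
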